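import Pool.Agent.helper52.IR.Spec

/-!
# Project IR (MP_07c750_an), row NPR: near pairs
-/

open scoped MatrixGroups ContDiff Topology UpperHalfPlane ComplexConjugate
open UpperHalfPlane MeasureTheory Filter Set

set_option autoImplicit false

namespace Pool.Agent.IR

open Pool.Agent.RS

theorem NPR_sq (P : Finset ℤ) (t : ℝ) : ‖ps P t‖ ^ 2 = ∑ p ∈ P, ∑ q ∈ P, Real.cos (((p : ℝ) - q) * t) := by
  have h1 : (‖ps P t‖ ^ 2 : ℝ) = (ps P t * (starRingEnd ℂ) (ps P t)).re := by
    rw [Complex.mul_conj, Complex.ofReal_re, Complex.normSq_eq_norm_sq]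
  rw [h1]
  unfold ps
  rw [map_sum, Finset.sum_mul_sum, Complex.re_sum]
  refine Finset.sum_congr rfl fun p _ => ?_
  rw [Complex.re_sum]
  refine Finset.sum_congr rfl fun q _ => ?_
  rw [← Complex.exp_conj, ← Complex.exp_add]
  have h2 : ((p * t : ℝ) : ℂ) * Complex.I + (starRingEnd ℂ) (((q * t : ℝ) : ℂ) * Complex.I) = ((((p : ℝ) - q) * t : ℝ) : ℂ) * Complex.I := by
    rw [map_mul, Complex.conj_ofReal, Complex.conj_I]
    push_cast
    ring
  rw [h2, Complex.exp_ofReal_mul_I_re]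

theorem NPR_cont (P : Finset ℤ) : Continuous fun t : ℝ => ‖ps P t‖ ^ 2 := by
  have h : (fun t : ℝ => ‖ps P t‖ ^ 2) = fun t => ∑ p ∈ P, ∑ q ∈ P, Real.cos (((p : ℝ) - q) * t) := funext fun t => NPR_sq P t
  rw [h]
  fun_prop

theorem NPR_le (P : Finset ℤ) (t : ℝ) : ‖ps P t‖ ≤ P.card := by
  unfold ps
  refine (norm_sum_le _ _).trans (le_of_eq ?_)
  have h : ∀ p ∈ P, ‖Complex.exp (((p * t : ℝ) : ℂ) * Complex.I)‖ = 1 := fun p _ => Complex.norm_exp_ofReal_mul_I _
  rw [Finset.sum_congr rfl h, Finset.sum_const, nsmul_eq_mul, mul_one]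

theorem NPR_cos (k : ℤ) (hk : k ≠ 0) : ∫ t in (-(5 * Real.pi))..(5 * Real.pi), Real.cos ((k : ℝ) * t) = 0 := by
  have hk' : (k : ℝ) ≠ 0 := by exact_mod_cast hk
  rw [intervalIntegral.integral_comp_mul_left (fun x => Real.cos x) hk', integral_cos]
  have h : (k : ℝ) * (5 * Real.pi) = ((5 * k : ℤ) : ℝ) * Real.pi := by
    push_cast
    ring
  rw [mul_neg, Real.sin_neg, h, Real.sin_int_mul_pi]
  simp

theorem NPR_int (P : Finset ℤ) : ∫ t in (-(5 * Real.pi))..(5 * Real.pi), ‖ps P t‖ ^ 2 = 10 * Real.pi * P.card := by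
  have hc : ∀ p q : ℤ, IntervalIntegrable (fun t : ℝ => Real.cos (((p : ℝ) - q) * t)) volume (-(5 * Real.pi)) (5 * Real.pi) := fun p q => by
    apply Continuous.intervalIntegrable
    fun_prop
  simp only [NPR_sq]
  rw [intervalIntegral.integral_finsetSum fun p _ => (by apply Continuous.intervalIntegrable; fun_prop)]
  have h : ∀ p ∈ P, ∫ t in (-(5 * Real.pi))..(5 * Real.pi), ∑ q ∈ P, Real.cos (((p : ℝ) - q) * t) = 10 * Real.pi := by
    intro p hp
    rw [intervalIntegral.integral_finsetSum fun q _ => hc p q, Finset.sum_eq_single p]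
    · rw [sub_self]
      simp only [zero_mul, Real.cos_zero]
      rw [intervalIntegral.integral_const, smul_eq_mul]
      ring
    · intro q _ hq
      have h1 : ((p : ℝ) - q) = ((p - q : ℤ) : ℝ) := by push_cast; rfl
      rw [h1]
      exact NPR_cos _ (sub_ne_zero.2 hq.symm)
    · intro h1
      exact absurd hp h1
  rw [Finset.sum_congr rfl h, Finset.sum_const, nsmul_eq_mul]
  ring

theorem NPR_proof : NPR_stmt := by
  refine ⟨20 * Real.pi, by positivity, ?_⟩
  intro P P' x x' w hx hx' hw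
  have hS : {u : ℝ | |u| ≤ 8} = Icc (-8) 8 := by
    ext u
    rw [Set.mem_ofPred_eq, abs_le, Set.mem_Icc]
  rw [hS, integral_Icc_eq_integral_Ioc, ← intervalIntegral.integral_of_le (by norm_num)]
  have hwx : |w * x'| ≤ 3 / 16 := by
    rw [abs_mul]
    calc |w| * |x'| ≤ 1 / 16 * 3 := mul_le_mul hw hx' (abs_nonneg _) (by norm_num)
      _ = 3 / 16 := by norm_num
  rw [abs_le] at hwx
  obtain ⟨v, hv⟩ : ∃ v : ℝ, v = om w x' := ⟨_, rfl⟩
  have hd1 : (13 / 16 : ℝ) ^ 2 ≤ (1 - w * x') ^ 2 := by nlinarith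
  have hd2 : (1 - w * x') ^ 2 ≤ 2 := by nlinarith
  have hv1 : 1 / 2 ≤ v := by
    rw [hv]
    unfold om
    exact one_div_le_one_div_of_le (by nlinarith) hd2
  have hv2 : v ≤ 256 / 169 := by
    rw [hv]
    unfold om
    rw [div_le_div_iff₀ (by nlinarith) (by norm_num)]
    nlinarith
  have hv0 : 0 < v := by linarith
  rw [← hv]
  have hc1 : Continuous fun u : ℝ => ‖ps P (om w x * u)‖ ^ 2 := (NPR_cont P).comp (continuous_const.mul continuous_id)
  have hc2 : Continuous fun u : ℝ => ‖ps P' (v * u)‖ ^ 2 := (NPR_cont P').comp (continuous_const.mul continuous_id)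
  calc ∫ u in (-8 : ℝ)..8, ‖ps P (om w x * u)‖ ^ 2 * ‖ps P' (v * u)‖ ^ 2
      ≤ ∫ u in (-8 : ℝ)..8, (P.card : ℝ) ^ 2 * ‖ps P' (v * u)‖ ^ 2 := by
        refine intervalIntegral.integral_mono_on (by norm_num) ((hc1.mul hc2).intervalIntegrable _ _) ((continuous_const.mul hc2).intervalIntegrable _ _) fun u _ => ?_
        exact mul_le_mul_of_nonneg_right (pow_le_pow_left₀ (norm_nonneg _) (NPR_le P _) 2) (by positivity)
    _ = (P.card : ℝ) ^ 2 * ∫ u in (-8 : ℝ)..8, ‖ps P' (v * u)‖ ^ 2 := intervalIntegral.integral_const_mul _ _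
    _ ≤ (P.card : ℝ) ^ 2 * (20 * Real.pi * P'.card) := by
        refine mul_le_mul_of_nonneg_left ?_ (by positivity)
        rw [intervalIntegral.integral_comp_mul_left (fun t => ‖ps P' t‖ ^ 2) hv0.ne', smul_eq_mul]
        have h1 : ∫ t in (v * -8)..(v * 8), ‖ps P' t‖ ^ 2 ≤ 10 * Real.pi * P'.card := by
          rw [← NPR_int]
          have hpi := Real.pi_gt_three
          refine intervalIntegral.integral_mono_interval (by linarith) (by linarith) (by linarith) ?_ ((NPR_cont P').intervalIntegrable _ _)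
          exact Filter.Eventually.of_forall fun t => by positivity
        have h2 : v⁻¹ ≤ 2 := by
          rw [inv_le_comm₀ hv0 (by norm_num)]
          linarith
        have h3 : 0 ≤ ∫ t in (v * -8)..(v * 8), ‖ps P' t‖ ^ 2 := intervalIntegral.integral_nonneg (by linarith) fun t _ => by positivity
        calc v⁻¹ * ∫ t in (v * -8)..(v * 8), ‖ps P' t‖ ^ 2 ≤ 2 * (10 * Real.pi * P'.card) := mul_le_mul h2 h1 h3 (by norm_num)
          _ = 20 * Real.pi * P'.card := by ring
    _ = 20 * Real.pi * ((P.card : ℝ) ^ 2 * P'.card) := by ring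

end Pool.Agent.IR
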